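import Mathlib

/-!
# MP_1e901d_co: the pairs for which all extremal examples are pencils, with the element-wise
definition of the problem file

A pencil is a zero-sum set of reals with exactly one non-negative element, an anti-pencil is one with
exactly one negative element.
-/

namespace Pool.Agent.Results.MP_1e901d_co.LiteralClassification

open Finset

/-- The number of `k`-element subsets of `A` with non-negative sum. -/
noncomputable def mu (k : ℕ) (A : Finset ℝ) : ℕ :=
  ((A.powersetCard k).filter (fun B => 0 ≤ ∑ b ∈ B, b)).card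

/-- `A` is a set of `n` reals with sum `0`. -/
def ZeroSum (n : ℕ) (A : Finset ℝ) : Prop := A.card = n ∧ ∑ a ∈ A, a = 0

/-- `A` is an extremal example for the minimum of `mu k` over the `n`-sets with sum `0`. -/
def MinExtremal (k n : ℕ) (A : Finset ℝ) : Prop :=
  ZeroSum n A ∧ ∀ A' : Finset ℝ, ZeroSum n A' → mu k A ≤ mu k A'

/-- `A` is an extremal example for the maximum of `mu k` over the `n`-sets with sum `0`. -/
def MaxExtremal (k n : ℕ) (A : Finset ℝ) : Prop :=
  ZeroSum n A ∧ ∀ A' : Finset ℝ, ZeroSum n A' → mu k A' ≤ mu k A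

/-- Exactly one element of `A` is non-negative. -/
def OneNonneg (A : Finset ℝ) : Prop := (A.filter (fun a => 0 ≤ a)).card = 1

/-- Exactly one element of `A` is negative. -/
def OneNeg (A : Finset ℝ) : Prop := (A.filter (fun a => a < 0)).card = 1

theorem mu_le_choose (k : ℕ) (A : Finset ℝ) : mu k A ≤ A.card.choose k := by
  unfold mu
  rw [← Finset.card_powersetCard k A]
  exact Finset.card_filter_le _ _

/-- `{1, ..., m}`. -/
noncomputable def P (m : ℕ) : Finset ℝ :=
  (range m).map (⟨fun i : ℕ => (i : ℝ) + 1, by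
    intro a b h
    have : (a : ℝ) + 1 = (b : ℝ) + 1 := h
    have h' : (a : ℝ) = b := by linarith
    exact_mod_cast h'⟩ : ℕ ↪ ℝ)

theorem card_P (m : ℕ) : (P m).card = m := by
  unfold P
  rw [Finset.card_map, Finset.card_range]

theorem one_le_of_mem_P {m : ℕ} {y : ℝ} (h : y ∈ P m) : 1 ≤ y := by
  unfold P at h
  rw [Finset.mem_map] at h
  obtain ⟨i, _, rfl⟩ := h
  show 1 ≤ (i : ℝ) + 1
  have : (0 : ℝ) ≤ i := by positivity
  linarith

theorem sum_P_ge (m : ℕ) : (m : ℝ) ≤ ∑ y ∈ P m, y := by
  have h := Finset.card_nsmul_le_sum (P m) (fun y => y) 1 (fun y hy => one_le_of_mem_P hy)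
  rw [card_P, nsmul_eq_mul, mul_one] at h
  exact h

/-- `{-1, ..., -m}`. -/
noncomputable def N (m : ℕ) : Finset ℝ := (P m).map (Equiv.neg ℝ).toEmbedding

theorem card_N (m : ℕ) : (N m).card = m := by
  unfold N
  rw [Finset.card_map, card_P]

theorem le_of_mem_N {m : ℕ} {y : ℝ} (h : y ∈ N m) : y ≤ -1 := by
  unfold N at h
  rw [Finset.mem_map] at h
  obtain ⟨z, hz, hzy⟩ := h
  have h1 : -z = y := hzy
  have := one_le_of_mem_P hz
  linarith

theorem sum_N (m : ℕ) : ∑ y ∈ N m, y = -∑ y ∈ P m, y := by
  unfold N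
  rw [Finset.sum_map]
  simp only [Equiv.coe_toEmbedding, Equiv.neg_apply]
  rw [Finset.sum_neg_distrib]

/-- A minimiser of an `ℕ`-valued function over a nonempty class exists. -/
theorem exists_min (n : ℕ) (g : Finset ℝ → ℕ) (A0 : Finset ℝ) (h0 : ZeroSum n A0) :
    ∃ A, ZeroSum n A ∧ ∀ A', ZeroSum n A' → g A ≤ g A' := by
  classical
  have hne : {m : ℕ | ∃ A, ZeroSum n A ∧ g A = m}.Nonempty := ⟨g A0, A0, h0, rfl⟩
  obtain ⟨A, hA, hgA⟩ := Nat.sInf_mem hne
  refine ⟨A, hA, ?_⟩
  intro A' hA'
  rw [hgA]
  exact Nat.sInf_le ⟨A', hA', rfl⟩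

/-- sets containing `x`. -/
theorem card_star (k : ℕ) (A : Finset ℝ) (x : ℝ) (hx : x ∈ A) (hk : 1 ≤ k) :
    ((A.powersetCard k).filter (fun T => x ∈ T)).card = (A.card - 1).choose (k - 1) := by
  classical
  have h := Finset.card_filter_powersetCard_subset {x} A k (Finset.singleton_subset_iff.2 hx)
    (by rw [Finset.card_singleton]; omega)
  rw [Finset.card_singleton] at h
  rw [← h]
  congr 1
  apply Finset.filter_congr
  intro T _
  rw [Finset.singleton_subset_iff]

/-- A pencil has at least `C(n-1,k-1)` non-negative `k`-subsets. -/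
theorem pencil_ge (k n : ℕ) (hk : 1 ≤ k) (A : Finset ℝ) (hA : ZeroSum n A) (hp : OneNonneg A) :
    (n - 1).choose (k - 1) ≤ mu k A := by
  classical
  unfold OneNonneg at hp
  rw [Finset.card_eq_one] at hp
  obtain ⟨x, hx⟩ := hp
  have hx1 : x ∈ A.filter (fun a => 0 ≤ a) := by
    rw [hx]
    exact Finset.mem_singleton_self x
  rw [Finset.mem_filter] at hx1
  have hneg : ∀ y ∈ A, y ≠ x → y < 0 := by
    intro y hy hyx
    by_contra hc
    have : y ∈ A.filter (fun a => 0 ≤ a) := by
      rw [Finset.mem_filter]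
      exact ⟨hy, not_lt.1 hc⟩
    rw [hx, Finset.mem_singleton] at this
    exact hyx this
  have h2 := card_star k A x hx1.1 hk
  rw [hA.1] at h2
  rw [← h2]
  unfold mu
  apply Finset.card_le_card
  intro B hB
  rw [Finset.mem_filter, Finset.mem_powersetCard] at hB ⊢
  refine ⟨hB.1, ?_⟩
  have h3 := Finset.sum_sdiff hB.1.1 (f := fun y : ℝ => y)
  have h4 : ∑ y ∈ A \ B, y ≤ 0 := by
    apply Finset.sum_nonpos
    intro y hy
    rw [Finset.mem_sdiff] at hy
    apply (hneg y hy.1 _).le
    rintro rfl
    exact hy.2 hB.2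
  have h5 := hA.2
  linarith

/-- An anti-pencil has at most `C(n-1,k)` non-negative `k`-subsets if `k ≤ n - 2`. -/
theorem antiPencil_le (k n : ℕ) (hkn : k + 2 ≤ n) (A : Finset ℝ) (hA : ZeroSum n A)
    (hp : OneNeg A) : mu k A ≤ (n - 1).choose k := by
  classical
  unfold OneNeg at hp
  rw [Finset.card_eq_one] at hp
  obtain ⟨x, hx⟩ := hp
  have hx1 : x ∈ A.filter (fun a => a < 0) := by
    rw [hx]
    exact Finset.mem_singleton_self x
  rw [Finset.mem_filter] at hx1
  have hnn : ∀ y ∈ A, y ≠ x → 0 ≤ y := by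
    intro y hy hyx
    by_contra hc
    have : y ∈ A.filter (fun a => a < 0) := by
      rw [Finset.mem_filter]
      exact ⟨hy, not_le.1 hc⟩
    rw [hx, Finset.mem_singleton] at this
    exact hyx this
  have h1 : (n - 1).choose k = ((A.erase x).powersetCard k).card := by
    rw [Finset.card_powersetCard, Finset.card_erase_of_mem hx1.1, hA.1]
  rw [h1]
  unfold mu
  apply Finset.card_le_card
  intro B hB
  rw [Finset.mem_filter, Finset.mem_powersetCard] at hB
  rw [Finset.mem_powersetCard]
  refine ⟨?_, hB.1.2⟩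
  intro y hy
  rw [Finset.mem_erase]
  refine ⟨?_, hB.1.1 hy⟩
  rintro rfl
  -- `B` contains the negative element
  have h3 := Finset.sum_sdiff hB.1.1 (f := fun y : ℝ => y)
  have hnn' : ∀ z ∈ A \ B, 0 ≤ z := by
    intro z hz
    rw [Finset.mem_sdiff] at hz
    apply hnn z hz.1
    rintro rfl
    exact hz.2 hy
  have hc : 2 ≤ (A \ B).card := by
    rw [Finset.card_sdiff_of_subset hB.1.1, hA.1, hB.1.2]
    omega
  have h4 : 0 < ∑ z ∈ A \ B, z := by
    apply lt_of_le_of_ne (Finset.sum_nonneg hnn')
    intro h5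
    have h6 := (Finset.sum_eq_zero_iff_of_nonneg hnn').1 h5.symm
    have hsub : A \ B ⊆ {0} := by
      intro z hz
      rw [Finset.mem_singleton]
      exact h6 z hz
    have := Finset.card_le_card hsub
    rw [Finset.card_singleton] at this
    omega
  have h5 := hA.2
  linarith [hB.2]

/-- For `n ≥ 3`, `2 ≤ k ≤ n`, some minimal example has several non-negative elements. -/
theorem min_fails (k n : ℕ) (hk : 2 ≤ k) (hn : 3 ≤ n) :
    ∃ A, MinExtremal k n A ∧ ¬ OneNonneg A := by
  classical
  obtain ⟨m, rfl⟩ : ∃ m, n = m + 2 := ⟨n - 2, by omega⟩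
  set s := ∑ y ∈ P m, y with hs
  have hspos : 0 < s := by
    have := sum_P_ge m
    have hm : (1 : ℝ) ≤ m := by
      have : 1 ≤ m := by omega
      exact_mod_cast this
    linarith
  have h0 : (0 : ℝ) ∉ N m := by
    intro h
    have := le_of_mem_N h
    linarith
  have hs1 : s ∉ insert (0 : ℝ) (N m) := by
    intro h
    rw [Finset.mem_insert] at h
    rcases h with h | h
    · linarith
    · have := le_of_mem_N h
      linarith
  set A := insert s (insert (0 : ℝ) (N m)) with hA
  have hAc : A.card = m + 2 := by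
    rw [hA, Finset.card_insert_of_notMem hs1, Finset.card_insert_of_notMem h0, card_N]
  have hZ : ZeroSum (m + 2) A := by
    refine ⟨hAc, ?_⟩
    rw [hA, Finset.sum_insert hs1, Finset.sum_insert h0, sum_N]
    linarith
  have hnot : ¬ OneNonneg A := by
    intro h
    unfold OneNonneg at h
    have hsub : ({s, 0} : Finset ℝ) ⊆ A.filter (fun a => 0 ≤ a) := by
      intro y hy
      rw [Finset.mem_insert, Finset.mem_singleton] at hy
      rw [Finset.mem_filter, hA, Finset.mem_insert, Finset.mem_insert]
      rcases hy with rfl | rfl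
      · exact ⟨Or.inl rfl, hspos.le⟩
      · exact ⟨Or.inr (Or.inl rfl), le_refl _⟩
    have := Finset.card_le_card hsub
    rw [Finset.card_pair hspos.ne', h] at this
    omega
  have hmu : mu k A ≤ (m + 2 - 1).choose (k - 1) := by
    have h2 := card_star k A s (Finset.mem_insert_self _ _) (by omega)
    rw [hAc] at h2
    rw [← h2]
    unfold mu
    apply Finset.card_le_card
    intro B hB
    rw [Finset.mem_filter, Finset.mem_powersetCard] at hB ⊢
    refine ⟨hB.1, ?_⟩
    by_contra hsB
    have hle : ∀ y ∈ B, y ≤ 0 := by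
      intro y hy
      have h3 := hB.1.1 hy
      rw [hA, Finset.mem_insert, Finset.mem_insert] at h3
      rcases h3 with rfl | rfl | h3
      · exact absurd hy hsB
      · exact le_refl _
      · have := le_of_mem_N h3
        linarith
    have hex : ∃ y ∈ B, y ≠ 0 := by
      by_contra hno
      push Not at hno
      have hsub : B ⊆ {0} := by
        intro y hy
        rw [Finset.mem_singleton]
        exact hno y hy
      have := Finset.card_le_card hsub
      rw [Finset.card_singleton] at this
      omega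
    obtain ⟨y, hy, hy0⟩ := hex
    have h4 : ∑ b ∈ B, b < ∑ b ∈ B, (0 : ℝ) := by
      apply Finset.sum_lt_sum hle
      exact ⟨y, hy, lt_of_le_of_ne (hle y hy) hy0⟩
    rw [Finset.sum_const_zero] at h4
    linarith [hB.2]
  by_cases hext : MinExtremal k (m + 2) A
  · exact ⟨A, hext, hnot⟩
  · obtain ⟨A1, hA1, hmin⟩ := exists_min (m + 2) (mu k) A hZ
    refine ⟨A1, ⟨hA1, hmin⟩, ?_⟩
    intro hp
    have h5 := pencil_ge k (m + 2) (by omega) A1 hA1 hp
    apply hext
    refine ⟨hZ, ?_⟩
    intro A' hA'
    have := hmin A' hA'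
    omega

/-- For `2 ≤ k ≤ n - 2`, some maximal example has several negative elements. -/
theorem max_fails (k n : ℕ) (hk : 2 ≤ k) (hn : k + 2 ≤ n) :
    ∃ A, MaxExtremal k n A ∧ ¬ OneNeg A := by
  classical
  obtain ⟨m, rfl⟩ : ∃ m, n = m + 2 := ⟨n - 2, by omega⟩
  set s := ∑ y ∈ P m, y with hs
  have hspos : 2 ≤ s := by
    have := sum_P_ge m
    have hm : (2 : ℝ) ≤ m := by
      have : 2 ≤ m := by omega
      exact_mod_cast this
    linarith
  have h0 : (-(1 / 2) : ℝ) ∉ P m := by
    intro h
    have := one_le_of_mem_P h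
    linarith
  have hs1 : (1 / 2 - s) ∉ insert (-(1 / 2) : ℝ) (P m) := by
    intro h
    rw [Finset.mem_insert] at h
    rcases h with h | h
    · linarith
    · have := one_le_of_mem_P h
      linarith
  set A := insert (1 / 2 - s) (insert (-(1 / 2) : ℝ) (P m)) with hA
  have hAc : A.card = m + 2 := by
    rw [hA, Finset.card_insert_of_notMem hs1, Finset.card_insert_of_notMem h0, card_P]
  have hZ : ZeroSum (m + 2) A := by
    refine ⟨hAc, ?_⟩
    rw [hA, Finset.sum_insert hs1, Finset.sum_insert h0, ← hs]
    ring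
  have hnot : ¬ OneNeg A := by
    intro h
    unfold OneNeg at h
    have hsub : ({1 / 2 - s, -(1 / 2)} : Finset ℝ) ⊆ A.filter (fun a => a < 0) := by
      intro y hy
      rw [Finset.mem_insert, Finset.mem_singleton] at hy
      rw [Finset.mem_filter, hA, Finset.mem_insert, Finset.mem_insert]
      rcases hy with rfl | rfl
      · exact ⟨Or.inl rfl, by linarith⟩
      · exact ⟨Or.inr (Or.inl rfl), by norm_num⟩
    have := Finset.card_le_card hsub
    rw [Finset.card_pair (by intro h'; linarith), h] at this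
    omega
  have hmu : (m + 2 - 1).choose k ≤ mu k A := by
    have h1 : (m + 2 - 1).choose k = ((insert (-(1 / 2) : ℝ) (P m)).powersetCard k).card := by
      rw [Finset.card_powersetCard, Finset.card_insert_of_notMem h0, card_P]
      rfl
    rw [h1]
    unfold mu
    apply Finset.card_le_card
    intro B hB
    rw [Finset.mem_powersetCard] at hB
    rw [Finset.mem_filter, Finset.mem_powersetCard]
    refine ⟨⟨hB.1.trans (Finset.subset_insert _ _), hB.2⟩, ?_⟩
    by_cases hhalf : (-(1 / 2) : ℝ) ∈ B
    · have h3 : ∑ y ∈ B.erase (-(1 / 2)), y + (-(1 / 2)) = ∑ y ∈ B, y :=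
        Finset.sum_erase_add B (fun y => y) hhalf
      have hP : ∀ y ∈ B.erase (-(1 / 2)), 1 ≤ y := by
        intro y hy
        rw [Finset.mem_erase] at hy
        have := hB.1 hy.2
        rw [Finset.mem_insert] at this
        rcases this with h4 | h4
        · exact absurd h4 hy.1
        · exact one_le_of_mem_P h4
      have h4 := Finset.card_nsmul_le_sum (B.erase (-(1 / 2))) (fun y => y) 1 hP
      rw [Finset.card_erase_of_mem hhalf, hB.2, nsmul_eq_mul, mul_one] at h4
      have h5 : (1 : ℝ) ≤ ((k - 1 : ℕ) : ℝ) := by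
        have : 1 ≤ k - 1 := by omega
        exact_mod_cast this
      linarith
    · apply Finset.sum_nonneg
      intro y hy
      have := hB.1 hy
      rw [Finset.mem_insert] at this
      rcases this with h4 | h4
      · exact absurd (h4 ▸ hy) hhalf
      · linarith [one_le_of_mem_P h4]
  by_cases hext : MaxExtremal k (m + 2) A
  · exact ⟨A, hext, hnot⟩
  · obtain ⟨A1, hA1, hmin⟩ := exists_min (m + 2) (fun A => (m + 2).choose k - mu k A) A hZ
    have hmax : ∀ A', ZeroSum (m + 2) A' → mu k A' ≤ mu k A1 := by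
      intro A' hA'
      have h1 := hmin A' hA'
      have h2 := mu_le_choose k A'
      have h3 := mu_le_choose k A1
      rw [hA'.1] at h2
      rw [hA1.1] at h3
      omega
    refine ⟨A1, ⟨hA1, hmax⟩, ?_⟩
    intro hp
    have h5 := antiPencil_le k (m + 2) hn A1 hA1 hp
    apply hext
    refine ⟨hZ, ?_⟩
    intro A' hA'
    have := hmax A' hA'
    omega

/-- The set `{-1, ..., -m} ∪ {1 + ... + m}`. -/
theorem example_neg (m : ℕ) (hm : 2 ≤ m) :
    ∃ A, ZeroSum (m + 1) A ∧ ¬ OneNeg A ∧ m ≤ mu m A := by
  classical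
  set s := ∑ y ∈ P m, y with hs
  have hspos : 0 < s := by
    have := sum_P_ge m
    have hm' : (2 : ℝ) ≤ m := by exact_mod_cast hm
    linarith
  have hs1 : s ∉ N m := by
    intro h
    have := le_of_mem_N h
    linarith
  set A := insert s (N m) with hA
  have hAc : A.card = m + 1 := by
    rw [hA, Finset.card_insert_of_notMem hs1, card_N]
  have hZ : ∑ a ∈ A, a = 0 := by
    rw [hA, Finset.sum_insert hs1, sum_N]
    linarith
  refine ⟨A, ⟨hAc, hZ⟩, ?_, ?_⟩
  · intro h
    unfold OneNeg at h
    have hsub : N m ⊆ A.filter (fun a => a < 0) := by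
      intro y hy
      rw [Finset.mem_filter]
      refine ⟨Finset.mem_insert_of_mem hy, ?_⟩
      linarith [le_of_mem_N hy]
    have := Finset.card_le_card hsub
    rw [card_N, h] at this
    omega
  · have hinj : Set.InjOn (fun y => A.erase y) (N m : Set ℝ) := by
      intro y hy y' hy' h
      have h' : A.erase y = A.erase y' := h
      by_contra hne
      have h1 : y ∈ A.erase y' :=
        Finset.mem_erase.2 ⟨hne, Finset.mem_insert_of_mem hy⟩
      rw [← h'] at h1
      exact Finset.notMem_erase y A h1
    have h1 : ((N m).image (fun y => A.erase y)).card = m := by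
      rw [Finset.card_image_of_injOn hinj, card_N]
    calc m = ((N m).image (fun y => A.erase y)).card := h1.symm
      _ ≤ mu m A := by
        unfold mu
        apply Finset.card_le_card
        intro B hB
        rw [Finset.mem_image] at hB
        obtain ⟨y, hy, rfl⟩ := hB
        have hyA : y ∈ A := Finset.mem_insert_of_mem hy
        rw [Finset.mem_filter, Finset.mem_powersetCard]
        refine ⟨⟨Finset.erase_subset _ _, ?_⟩, ?_⟩
        · rw [Finset.card_erase_of_mem hyA, hAc]
          rfl
        · have h3 : ∑ z ∈ A.erase y, z + y = ∑ z ∈ A, z :=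
            Finset.sum_erase_add A (fun z => z) hyA
          linarith [le_of_mem_N hy]

/-- A zero-sum set with at least two elements has a positive and a negative element. -/
theorem exists_signs (n : ℕ) (hn : 2 ≤ n) (A : Finset ℝ) (hA : ZeroSum n A) :
    (∃ y ∈ A, 0 < y) ∧ (∃ y ∈ A, y < 0) := by
  classical
  have key : ∀ (h : ∀ y ∈ A, y = 0), False := by
    intro h
    have hsub : A ⊆ {0} := by
      intro z hz
      rw [Finset.mem_singleton]
      exact h z hz
    have := Finset.card_le_card hsub
    rw [Finset.card_singleton, hA.1] at this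
    omega
  constructor
  · by_contra hno
    push Not at hno
    exact key ((Finset.sum_eq_zero_iff_of_nonpos hno).1 hA.2)
  · by_contra hno
    push Not at hno
    exact key ((Finset.sum_eq_zero_iff_of_nonneg hno).1 hA.2)

theorem mu_pred_le (n : ℕ) (hn : 1 ≤ n) (A : Finset ℝ) (hA : ZeroSum (n + 1) A) :
    mu n A ≤ n := by
  classical
  obtain ⟨⟨y, hy, hy0⟩, _⟩ := exists_signs (n + 1) (by omega) A hA
  have hB : A.erase y ∈ A.powersetCard n := by
    rw [Finset.mem_powersetCard]
    refine ⟨Finset.erase_subset _ _, ?_⟩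
    rw [Finset.card_erase_of_mem hy, hA.1]
    rfl
  have hnot : A.erase y ∉ (A.powersetCard n).filter (fun B => 0 ≤ ∑ b ∈ B, b) := by
    intro h
    rw [Finset.mem_filter] at h
    have h3 : ∑ z ∈ A.erase y, z + y = ∑ z ∈ A, z := Finset.sum_erase_add A (fun z => z) hy
    have := hA.2
    linarith [h.2]
  have hlt : ((A.powersetCard n).filter (fun B => 0 ≤ ∑ b ∈ B, b)).card <
      (A.powersetCard n).card := by
    apply Finset.card_lt_card
    rw [Finset.ssubset_iff_of_subset (Finset.filter_subset _ _)]
    exact ⟨_, hB, hnot⟩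
  rw [Finset.card_powersetCard, hA.1] at hlt
  have : (n + 1).choose n = n + 1 := Nat.choose_succ_self_right n
  unfold mu
  omega

/-- A two-element zero-sum set has one negative and one non-negative element. -/
theorem two (A : Finset ℝ) (hA : ZeroSum 2 A) : OneNonneg A ∧ OneNeg A := by
  classical
  obtain ⟨⟨y, hy, hy0⟩, ⟨z, hz, hz0⟩⟩ := exists_signs 2 (le_refl _) A hA
  have hsum : (A.filter (fun a => 0 ≤ a)).card + (A.filter (fun a => a < 0)).card = 2 := by
    rw [← hA.1, ← Finset.card_filter_add_card_filter_not (s := A) (fun a => 0 ≤ a)]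
    congr 2
    apply Finset.filter_congr
    intro a _
    exact not_le.symm
  have h1 : 0 < (A.filter (fun a => 0 ≤ a)).card :=
    Finset.card_pos.2 ⟨y, by rw [Finset.mem_filter]; exact ⟨hy, hy0.le⟩⟩
  have h2 : 0 < (A.filter (fun a => a < 0)).card :=
    Finset.card_pos.2 ⟨z, by rw [Finset.mem_filter]; exact ⟨hz, hz0⟩⟩
  unfold OneNonneg OneNeg
  omega

theorem mu_one (A : Finset ℝ) : mu 1 A = (A.filter (fun a => 0 ≤ a)).card := by
  classical
  unfold mu
  rw [Finset.powersetCard_one, Finset.filter_map, Finset.card_map]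
  congr 1
  apply Finset.filter_congr
  intro a _
  simp

/-- The set `{-1, ..., -m} ∪ {1 + ... + m}` has one non-negative element. -/
theorem exists_pencil (n : ℕ) (hn : 1 ≤ n) : ∃ A, ZeroSum n A ∧ OneNonneg A := by
  classical
  obtain ⟨m, rfl⟩ : ∃ m, n = m + 1 := ⟨n - 1, by omega⟩
  set s := ∑ y ∈ P m, y with hs
  have hspos : 0 ≤ s := le_trans (by positivity) (sum_P_ge m)
  have hs1 : s ∉ N m := by
    intro h
    have := le_of_mem_N h
    linarith
  refine ⟨insert s (N m), ⟨?_, ?_⟩, ?_⟩
  · rw [Finset.card_insert_of_notMem hs1, card_N]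
  · rw [Finset.sum_insert hs1, sum_N]
    linarith
  · unfold OneNonneg
    rw [Finset.card_eq_one]
    refine ⟨s, ?_⟩
    ext y
    rw [Finset.mem_filter, Finset.mem_insert, Finset.mem_singleton]
    constructor
    · rintro ⟨h | h, h0⟩
      · exact h
      · have := le_of_mem_N h
        linarith
    · rintro rfl
      exact ⟨Or.inl rfl, hspos⟩

/-- The set `{1, ..., m} ∪ {-(1 + ... + m)}` has one negative element. -/
theorem exists_antiPencil (n : ℕ) (hn : 2 ≤ n) : ∃ A, ZeroSum n A ∧ OneNeg A := by
  classical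
  obtain ⟨m, rfl⟩ : ∃ m, n = m + 1 := ⟨n - 1, by omega⟩
  set s := ∑ y ∈ P m, y with hs
  have hspos : 0 < s := by
    have := sum_P_ge m
    have hm : (1 : ℝ) ≤ m := by
      have : 1 ≤ m := by omega
      exact_mod_cast this
    linarith
  have hs1 : -s ∉ P m := by
    intro h
    have := one_le_of_mem_P h
    linarith
  refine ⟨insert (-s) (P m), ⟨?_, ?_⟩, ?_⟩
  · rw [Finset.card_insert_of_notMem hs1, card_P]
  · rw [Finset.sum_insert hs1, ← hs]
    ring
  · unfold OneNeg
    rw [Finset.card_eq_one]
    refine ⟨-s, ?_⟩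
    ext y
    rw [Finset.mem_filter, Finset.mem_insert, Finset.mem_singleton]
    constructor
    · rintro ⟨h | h, h0⟩
      · exact h
      · have := one_le_of_mem_P h
        linarith
    · rintro rfl
      exact ⟨Or.inl rfl, by linarith⟩

theorem card_split (A : Finset ℝ) :
    (A.filter (fun a => 0 ≤ a)).card + (A.filter (fun a => a < 0)).card = A.card := by
  classical
  rw [← Finset.card_filter_add_card_filter_not (s := A) (fun a => 0 ≤ a)]
  congr 2
  apply Finset.filter_congr
  intro a _
  exact not_le.symm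

/-- **Classification.** For `1 ≤ k ≤ n`: every extremal example for the minimum has exactly one
non-negative element iff `k = 1` or `(k, n) = (2, 2)`; every extremal example for the maximum has
exactly one negative element iff `k = 1` and `n ≥ 2`, or `(k, n) = (2, 2)`. -/
theorem result (k n : ℕ) (hk : 1 ≤ k) (hkn : k ≤ n) :
    ((∀ A, MinExtremal k n A → OneNonneg A) ↔ (k = 1 ∨ (k = 2 ∧ n = 2))) ∧
    ((∀ A, MaxExtremal k n A → OneNeg A) ↔ ((k = 1 ∧ 2 ≤ n) ∨ (k = 2 ∧ n = 2))) := by
  classical
  refine ⟨⟨?_, ?_⟩, ⟨?_, ?_⟩⟩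
  · intro h
    by_contra hc
    push Not at hc
    obtain ⟨hc1, hc2⟩ := hc
    have hn3 : 3 ≤ n := by
      by_contra h3
      have : k = 2 := by omega
      exact hc2 this (by omega)
    obtain ⟨A, hA, hA'⟩ := min_fails k n (by omega) hn3
    exact hA' (h A hA)
  · rintro (rfl | ⟨rfl, rfl⟩)
    · rintro A ⟨hA, hmin⟩
      obtain ⟨A0, hA0, hp⟩ := exists_pencil n hkn
      have h1 := hmin A0 hA0
      rw [mu_one, mu_one] at h1
      unfold OneNonneg at hp ⊢
      rw [hp] at h1
      have h2 : 0 < (A.filter (fun a => 0 ≤ a)).card := by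
        rw [Finset.card_pos]
        by_contra hne
        rw [Finset.not_nonempty_iff_eq_empty, Finset.filter_eq_empty_iff] at hne
        have hneg : ∀ y ∈ A, y < 0 := fun y hy => not_le.1 (hne hy)
        have hAne : A.Nonempty := by
          rw [← Finset.card_pos, hA.1]
          omega
        have := Finset.sum_neg hneg hAne
        linarith [hA.2]
      omega
    · rintro A ⟨hA, _⟩
      exact (two A hA).1
  · intro h
    by_contra hc
    push Not at hc
    obtain ⟨hc1, hc2⟩ := hc
    rcases Nat.lt_or_ge k 2 with hk1 | hk2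
    · -- `k = 1`, `n = 1`
      have hk' : k = 1 := by omega
      subst hk'
      have hn1 : n = 1 := by
        have := hc1 rfl
        omega
      subst hn1
      have hZ : ZeroSum 1 ({0} : Finset ℝ) := ⟨Finset.card_singleton 0, Finset.sum_singleton _ 0⟩
      have hext : MaxExtremal 1 1 ({0} : Finset ℝ) := by
        refine ⟨hZ, ?_⟩
        intro A' hA'
        have h1 := mu_le_choose 1 A'
        rw [hA'.1] at h1
        have h2 : mu 1 ({0} : Finset ℝ) = 1 := by
          rw [mu_one, Finset.filter_singleton, if_pos (le_refl (0 : ℝ)), Finset.card_singleton]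
        rw [h2]
        rwa [Nat.choose_self] at h1
      have := h _ hext
      unfold OneNeg at this
      rw [Finset.filter_singleton, if_neg (lt_irrefl (0 : ℝ)), Finset.card_empty] at this
      omega
    · have hn3 : 3 ≤ n := by
        by_contra h3
        have : k = 2 := by omega
        exact hc2 this (by omega)
      rcases Nat.lt_or_ge n (k + 2) with hlt | hge
      · obtain ⟨m, rfl⟩ : ∃ m, n = m + 1 := ⟨n - 1, by omega⟩
        obtain ⟨A, hA, hAn, hAm⟩ := example_neg m (by omega)
        have hext : MaxExtremal k (m + 1) A := by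
          refine ⟨hA, ?_⟩
          intro A' hA'
          have hkm : k = m ∨ k = m + 1 := by omega
          rcases hkm with rfl | rfl
          · exact le_trans (mu_pred_le k (by omega) A' hA') hAm
          · have h1 := mu_le_choose (m + 1) A'
            rw [hA'.1, Nat.choose_self] at h1
            refine le_trans h1 ?_
            unfold mu
            rw [Nat.one_le_iff_ne_zero, ← Nat.pos_iff_ne_zero, Finset.card_pos]
            refine ⟨A, ?_⟩
            rw [Finset.mem_filter, Finset.mem_powersetCard]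
            exact ⟨⟨Finset.Subset.refl _, hA.1⟩, hA.2.ge⟩
        exact hAn (h A hext)
      · obtain ⟨A, hA, hA'⟩ := max_fails k n hk2 hge
        exact hA' (h A hA)
  · rintro (⟨rfl, hn2⟩ | ⟨rfl, rfl⟩)
    · rintro A ⟨hA, hmax⟩
      obtain ⟨A0, hA0, hp⟩ := exists_antiPencil n hn2
      have h1 := hmax A0 hA0
      rw [mu_one, mu_one] at h1
      have h2 := card_split A0
      have h3 := card_split A
      rw [hA0.1] at h2
      rw [hA.1] at h3
      unfold OneNeg at hp ⊢
      obtain ⟨_, ⟨y, hy, hy0⟩⟩ := exists_signs n hn2 A hA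
      have h4 : 0 < (A.filter (fun a => a < 0)).card :=
        Finset.card_pos.2 ⟨y, by rw [Finset.mem_filter]; exact ⟨hy, hy0⟩⟩
      omega
    · rintro A ⟨hA, _⟩
      exact (two A hA).2

end Pool.Agent.Results.MP_1e901d_co.LiteralClassification
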