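import Pool.Agent.Helper594_MMS.DivU

/-!
# MP_1e901d_co: uniqueness of the extremal families

For a finite set `A` of reals let `mu k A` be the number of `k`-element subsets of `A` whose sum is
at least `0`.  Among the sets of `n` distinct reals with sum `0`, we determine those minimising and
those maximising `mu k A`, for all `n ≥ 4k` when `k ≤ 4`, for all `n ≥ 3k` divisible by `k`, and for
all `n ≥ 8k²`.
-/

namespace Pool.Agent.Results.MP_1e901d_co.StarUniqueness

open Finset Pool.Agent.Helper594_MMS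

/-- The number of `k`-element subsets of `A` with non-negative sum. -/
noncomputable def mu (k : ℕ) (A : Finset ℝ) : ℕ :=
  ((A.powersetCard k).filter (fun B => 0 ≤ ∑ b ∈ B, b)).card

/-- `A` is a set of `n` reals with sum `0`. -/
def ZeroSum (n : ℕ) (A : Finset ℝ) : Prop := A.card = n ∧ ∑ a ∈ A, a = 0

/-- `A` is an extremal example for the minimum of `mu k` over the `n`-sets with sum `0`. -/
def MinExtremal (k n : ℕ) (A : Finset ℝ) : Prop :=
  ZeroSum n A ∧ ∀ A' : Finset ℝ, ZeroSum n A' → mu k A ≤ mu k A'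

/-- `A` is an extremal example for the maximum of `mu k` over the `n`-sets with sum `0`. -/
def MaxExtremal (k n : ℕ) (A : Finset ℝ) : Prop :=
  ZeroSum n A ∧ ∀ A' : Finset ℝ, ZeroSum n A' → mu k A' ≤ mu k A

/-- Pencil: the `k`-subsets of `A` with non-negative sum are exactly those containing the largest
element of `A`. -/
def Pencil (k : ℕ) (A : Finset ℝ) : Prop :=
  ∃ x ∈ A, (∀ y ∈ A, y ≤ x) ∧ ∀ B ⊆ A, B.card = k → (0 ≤ ∑ b ∈ B, b ↔ x ∈ B)

/-- Anti-pencil: the `k`-subsets of `A` with non-negative sum are exactly those avoiding the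
smallest element of `A`. -/
def AntiPencil (k : ℕ) (A : Finset ℝ) : Prop :=
  ∃ x ∈ A, (∀ y ∈ A, x ≤ y) ∧ ∀ B ⊆ A, B.card = k → (0 ≤ ∑ b ∈ B, b ↔ x ∉ B)

theorem mu_add_neg (k : ℕ) (A : Finset ℝ) : mu k A + (neg k A).card = A.card.choose k := by
  unfold mu neg
  rw [← Finset.card_powersetCard k A,
    ← Finset.card_filter_add_card_filter_not (s := A.powersetCard k)
      (fun B => 0 ≤ ∑ b ∈ B, b)]
  congr 2
  apply Finset.filter_congr
  intro B _
  exact not_le.symm

/-- The negated set. -/
noncomputable def opp (A : Finset ℝ) : Finset ℝ := A.map (Equiv.neg ℝ).toEmbedding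

theorem zeroSum_opp {n : ℕ} {A : Finset ℝ} (h : ZeroSum n A) : ZeroSum n (opp A) := by
  refine ⟨?_, ?_⟩
  · unfold opp
    rw [Finset.card_map]
    exact h.1
  · unfold opp
    rw [Finset.sum_map]
    simp only [Equiv.coe_toEmbedding, Equiv.neg_apply]
    rw [Finset.sum_neg_distrib, h.2, neg_zero]

/-- The `k`-subsets with positive sum. -/
noncomputable def pos (k : ℕ) (A : Finset ℝ) : Finset (Finset ℝ) :=
  (A.powersetCard k).filter (fun B => 0 < ∑ b ∈ B, b)

theorem card_neg_opp (k : ℕ) (A : Finset ℝ) : (neg k (opp A)).card = (pos k A).card := by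
  unfold neg opp pos
  rw [Finset.powersetCard_map, Finset.filter_map, Finset.card_map]
  congr 1
  apply Finset.filter_congr
  intro T _
  simp only [Function.comp]
  have h1 : ((Finset.mapEmbedding (Equiv.neg ℝ).toEmbedding).toEmbedding T) =
      T.map (Equiv.neg ℝ).toEmbedding := rfl
  rw [h1, Finset.sum_map]
  simp only [Equiv.coe_toEmbedding, Equiv.neg_apply]
  rw [Finset.sum_neg_distrib]
  constructor
  · intro h
    linarith
  · intro h
    linarith

theorem pos_le_mu (k : ℕ) (A : Finset ℝ) : (pos k A).card ≤ mu k A := by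
  unfold pos mu
  apply Finset.card_le_card
  intro T hT
  rw [Finset.mem_filter] at hT ⊢
  exact ⟨hT.1, hT.2.le⟩

/-- The example `{-(1 + ... + p)} ∪ {1, ..., p}` and its negative. -/
theorem exists_example (n k : ℕ) (hn : 3 ≤ n) (hk : 1 ≤ k) :
    ∃ A : Finset ℝ, ZeroSum n A ∧ (n - 1).choose k ≤ mu k A ∧
      mu k (opp A) ≤ (n - 1).choose (k - 1) := by
  classical
  obtain ⟨p, rfl⟩ : ∃ p, n = p + 1 := ⟨n - 1, by omega⟩
  let f : ℕ ↪ ℝ := ⟨fun i => (i : ℝ) + 1, by
    intro a b h
    have : (a : ℝ) + 1 = (b : ℝ) + 1 := h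
    have h' : (a : ℝ) = b := by linarith
    exact_mod_cast h'⟩
  let P : Finset ℝ := (range p).map f
  have hPpos : ∀ y ∈ P, 0 < y := by
    intro y hy
    rw [Finset.mem_map] at hy
    obtain ⟨i, _, rfl⟩ := hy
    show 0 < (i : ℝ) + 1
    positivity
  have hPsum : 0 ≤ ∑ y ∈ P, y := Finset.sum_nonneg (fun y hy => (hPpos y hy).le)
  have hx : (-∑ y ∈ P, y) ∉ P := by
    intro h
    have := hPpos _ h
    linarith
  have hPc : P.card = p := by
    rw [Finset.card_map, Finset.card_range]
  set s := ∑ y ∈ P, y with hs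
  have hAc : (insert (-s) P).card = p + 1 := by
    rw [Finset.card_insert_of_notMem hx, hPc]
  refine ⟨insert (-s) P, ⟨hAc, ?_⟩, ?_, ?_⟩
  · rw [Finset.sum_insert hx]
    ring
  · have h1 : (p + 1 - 1).choose k = (P.powersetCard k).card := by
      rw [Finset.card_powersetCard, hPc]
      simp
    rw [h1]
    unfold mu
    apply Finset.card_le_card
    intro B hB
    rw [Finset.mem_powersetCard] at hB
    rw [Finset.mem_filter, Finset.mem_powersetCard]
    refine ⟨⟨hB.1.trans (Finset.subset_insert _ _), hB.2⟩, ?_⟩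
    exact Finset.sum_nonneg (fun y hy => (hPpos y (hB.1 hy)).le)
  · -- non-negative sets of the negated set contain `s`
    have hmem : s ∈ opp (insert (-s) P) := by
      unfold opp
      rw [Finset.mem_map]
      exact ⟨-s, Finset.mem_insert_self _ _, by simp⟩
    have hc : (opp (insert (-s) P)).card = p + 1 := by
      unfold opp
      rw [Finset.card_map, hAc]
    have h2 := card_star k (opp (insert (-s) P)) s hmem hk
    rw [hc] at h2
    rw [← h2]
    unfold mu starF
    apply Finset.card_le_card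
    intro B hB
    rw [Finset.mem_filter, Finset.mem_powersetCard] at hB ⊢
    refine ⟨hB.1, ?_⟩
    by_contra hsB
    have hneg : ∀ y ∈ B, y < 0 := by
      intro y hy
      have h3 := hB.1.1 hy
      unfold opp at h3
      rw [Finset.mem_map] at h3
      obtain ⟨z, hz, hzy⟩ := h3
      have hzy' : -z = y := hzy
      rw [Finset.mem_insert] at hz
      rcases hz with rfl | hz
      · rw [neg_neg] at hzy'
        exact absurd (hzy' ▸ hy) hsB
      · have := hPpos z hz
        linarith
    have hBne : B.Nonempty := by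
      rw [← Finset.card_pos, hB.1.2]
      omega
    have := Finset.sum_neg hneg hBne
    linarith [hB.2]

/-- The lower bound and its uniqueness, in the range considered. -/
theorem facts (k n : ℕ) (hk : 1 ≤ k)
    (h : (k ≤ 4 ∧ 4 * k ≤ n) ∨ (k ∣ n ∧ 3 * k ≤ n) ∨ 8 * k ^ 2 ≤ n) :
    (∀ A : Finset ℝ, ZeroSum n A → (n - 1).choose (k - 1) ≤ (neg k A).card) ∧
    (∀ A : Finset ℝ, ZeroSum n A → (neg k A).card ≤ (n - 1).choose (k - 1) → StarLow k A) := by
  rcases h with ⟨h, hn⟩ | ⟨h, hn⟩ | h
  · refine ⟨?_, ?_⟩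
    · rintro A ⟨h1, h2⟩
      exact strict_small k n hk h hn A h1 h2.le
    · rintro A ⟨h1, h2⟩ h3
      exact su_small k n hk h hn A h1 h2.le h3
  · refine ⟨?_, ?_⟩
    · rintro A ⟨h1, h2⟩
      exact strict_dvd3 k n hk h hn A h1 h2.le
    · rintro A ⟨h1, h2⟩ h3
      exact su_dvd k n hk h hn A h1 h2.le h3
  · refine ⟨?_, ?_⟩
    · rintro A ⟨h1, h2⟩
      have := neg_ge A k hk (Or.inl (by rw [h1]; exact h)) h2
      rwa [h1] at this
    · rintro A ⟨h1, h2⟩ h3
      exact starLow_large k hk A (by rw [h1]; exact h) h2 (by rw [h1]; exact h3)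

/-- **Main result.** Let `k ≥ 1`, and suppose that `k ≤ 4` and `n ≥ 4k`, or that `k` divides `n` and
`n ≥ 3k`, or that `n ≥ 8k²`.  Then the extremal examples for the minimum are exactly the pencils,
and the extremal examples for the maximum are exactly the anti-pencils. -/
theorem result (k n : ℕ) (hk : 1 ≤ k)
    (h : (k ≤ 4 ∧ 4 * k ≤ n) ∨ (k ∣ n ∧ 3 * k ≤ n) ∨ 8 * k ^ 2 ≤ n)
    (A : Finset ℝ) (hA : ZeroSum n A) :
    (MinExtremal k n A ↔ Pencil k A) ∧ (MaxExtremal k n A ↔ AntiPencil k A) := by
  classical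
  have hn3 : 3 ≤ n := by
    rcases h with h | h | h
    · omega
    · omega
    · nlinarith
  obtain ⟨hLB, hUQ⟩ := facts k n hk h
  obtain ⟨A0, hA0, hex1, hex2⟩ := exists_example n k hn3 hk
  have hchoose : n.choose k = (n - 1).choose (k - 1) + (n - 1).choose k := by
    obtain ⟨p, rfl⟩ : ∃ p, n = p + 1 := ⟨n - 1, by omega⟩
    obtain ⟨j, rfl⟩ : ∃ j, k = j + 1 := ⟨k - 1, by omega⟩
    exact Nat.choose_succ_succ p j
  refine ⟨⟨?_, ?_⟩, ⟨?_, ?_⟩⟩
  · rintro ⟨_, hmin⟩
    have h1 : mu k A ≤ (n - 1).choose (k - 1) := le_trans (hmin _ (zeroSum_opp hA0)) hex2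
    have h2 : (neg k (opp A)).card ≤ (n - 1).choose (k - 1) := by
      rw [card_neg_opp]
      exact le_trans (pos_le_mu k A) h1
    obtain ⟨x', hx', hx'min, hall⟩ := hUQ (opp A) (zeroSum_opp hA) h2
    have hx'2 := hx'
    unfold opp at hx'2
    rw [Finset.mem_map] at hx'2
    obtain ⟨x, hx, hxx⟩ := hx'2
    have hxx' : -x = x' := hxx
    refine ⟨x, hx, ?_, ?_⟩
    · intro y hy
      have h3 : -y ∈ opp A := by
        unfold opp
        rw [Finset.mem_map]
        exact ⟨y, hy, rfl⟩
      have := hx'min _ h3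
      linarith
    · -- the star through `x` consists of sets of positive sum
      have h4 : starF k A x ⊆ (A.powersetCard k).filter (fun B => 0 ≤ ∑ b ∈ B, b) := by
        intro T hT
        unfold starF at hT
        rw [Finset.mem_filter, Finset.mem_powersetCard] at hT
        obtain ⟨⟨t1, t2⟩, t3⟩ := hT
        rw [Finset.mem_filter, Finset.mem_powersetCard]
        refine ⟨⟨t1, t2⟩, ?_⟩
        have h5 : (T.erase x).map (Equiv.neg ℝ).toEmbedding ⊆ (opp A).erase x' := by
          intro w hw
          rw [Finset.mem_map] at hw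
          obtain ⟨y, hy, hyw⟩ := hw
          have hyw' : -y = w := hyw
          rw [Finset.mem_erase] at hy ⊢
          refine ⟨?_, ?_⟩
          · intro hwx
            apply hy.1
            have : -y = -x := by rw [hyw', hwx, hxx']
            exact neg_injective this
          · unfold opp
            rw [Finset.mem_map]
            exact ⟨y, t1 hy.2, hyw⟩
        have h6 := hall _ h5 (by rw [Finset.card_map, Finset.card_erase_of_mem t3, t2])
        rw [Finset.sum_map] at h6
        simp only [Equiv.coe_toEmbedding, Equiv.neg_apply] at h6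
        rw [Finset.sum_neg_distrib] at h6
        have h7 : ∑ y ∈ T.erase x, y + x = ∑ y ∈ T, y := Finset.sum_erase_add T (fun y => y) t3
        linarith
      have h5 : starF k A x = (A.powersetCard k).filter (fun B => 0 ≤ ∑ b ∈ B, b) := by
        apply Finset.eq_of_subset_of_card_le h4
        rw [card_star k A x hx hk, hA.1]
        exact h1
      intro B hB hBc
      have h6 : B ∈ starF k A x ↔ B ∈ (A.powersetCard k).filter (fun B => 0 ≤ ∑ b ∈ B, b) := by
        rw [h5]
      unfold starF at h6
      rw [Finset.mem_filter, Finset.mem_filter, Finset.mem_powersetCard] at h6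
      constructor
      · intro h7
        exact (h6.2 ⟨⟨hB, hBc⟩, h7⟩).2
      · intro h7
        exact (h6.1 ⟨⟨hB, hBc⟩, h7⟩).2
  · rintro ⟨x, hx, hxmax, hiff⟩
    refine ⟨hA, ?_⟩
    intro A' hA'
    have h1 : mu k A = (n - 1).choose (k - 1) := by
      have h2 := card_star k A x hx hk
      rw [hA.1] at h2
      rw [← h2]
      unfold mu starF
      congr 1
      apply Finset.filter_congr
      intro B hB
      rw [Finset.mem_powersetCard] at hB
      exact hiff B hB.1 hB.2
    rw [h1]
    have h3 := hLB (opp A') (zeroSum_opp hA')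
    rw [card_neg_opp] at h3
    exact le_trans h3 (pos_le_mu k A')
  · rintro ⟨_, hmax⟩
    have h1 : (n - 1).choose k ≤ mu k A := le_trans hex1 (hmax _ hA0)
    have h2 := mu_add_neg k A
    rw [hA.1] at h2
    have h3 : (neg k A).card ≤ (n - 1).choose (k - 1) := by omega
    obtain ⟨x, hx, hxmin, hall⟩ := hUQ A hA h3
    refine ⟨x, hx, hxmin, ?_⟩
    have h4 := neg_eq_star k A x hx hk hall (by rw [hA.1]; exact h3)
    intro B hB hBc
    have h5 : B ∈ neg k A ↔ B ∈ starF k A x := by rw [h4]
    unfold neg starF at h5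
    rw [Finset.mem_filter, Finset.mem_filter, Finset.mem_powersetCard] at h5
    constructor
    · intro h6 h7
      have := (h5.2 ⟨⟨hB, hBc⟩, h7⟩).2
      linarith
    · intro h6
      by_contra h7
      exact h6 (h5.1 ⟨⟨hB, hBc⟩, not_le.1 h7⟩).2
  · rintro ⟨x, hx, hxmin, hiff⟩
    refine ⟨hA, ?_⟩
    intro A' hA'
    have h1 : (neg k A).card = (n - 1).choose (k - 1) := by
      have h2 := card_star k A x hx hk
      rw [hA.1] at h2
      rw [← h2]
      unfold neg starF
      congr 1
      apply Finset.filter_congr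
      intro B hB
      rw [Finset.mem_powersetCard] at hB
      have h3 := hiff B hB.1 hB.2
      constructor
      · intro h4
        by_contra h5
        have := h3.2 h5
        linarith
      · intro h4
        by_contra h5
        exact (h3.1 (not_lt.1 h5)) h4
    have h2 := mu_add_neg k A
    have h3 := mu_add_neg k A'
    have h4 := hLB A' hA'
    rw [hA.1] at h2
    rw [hA'.1] at h3
    omega

end Pool.Agent.Results.MP_1e901d_co.StarUniqueness
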